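import Pool.Agent.Y183.TS.C
set_option autoImplicit false

/-! The Tomas-Stein theorem for the paraboloid (without the endpoint). -/

namespace Pool.Agent.Y183.TS

open MeasureTheory Set Filter Topology Complex
open scoped ENNReal NNReal
open Pool.Agent.W771.MD (qe em em_norm em_enorm em_cont em_meas planchM)
open Pool.Agent.Y183.LS (BA BA1_vol)
open Pool.Agent.Y183.PQ (BA1_fin)

variable {m : ℕ}

/-- the constant of the strong estimate -/
noncomputable def cs (m : ℕ) (q : ℝ) : ℝ :=
  q * cm m * (2 ^ ((m : ℝ) / 2)) ^ (q - 2 * ((m : ℝ) + 2) / m) / (q - 2 * ((m : ℝ) + 2) / m)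

/-- **Tomas-Stein, for positive norms** -/
lemma strong (hm : 0 < m) (q : ℝ) (hq : 2 * ((m : ℝ) + 2) / m < q)
    (H : (Fin m → ℝ) → ℂ) (hH : Measurable H) (K : ℝ) (hK : 0 < K)
    (hN : ∫⁻ v, ‖H v‖ₑ ^ 2 ≤ ENNReal.ofReal (K ^ 2)) :
    ∫⁻ z, ‖F H z‖ₑ ^ q ≤ ENNReal.ofReal (cs m q * K ^ q) := by
  have hm0 : (0 : ℝ) < m := by exact_mod_cast hm
  set b : ℝ := 2 * ((m : ℝ) + 2) / m with hb
  have hb0 : 0 < b := by positivity
  have hq0 : 0 < q := hb0.trans hq
  have hqb : 0 < q - b := by linarith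
  have hFm := F_meas H hH
  set M : ℝ := K * 2 ^ ((m : ℝ) / 2) with hM
  have hM0 : 0 < M := by positivity
  have hcm : 0 ≤ cm m := by unfold cm; positivity
  have h1 := lintegral_rpow_eq_lintegral_meas_lt_mul (volume : Measure (ℝ × (Fin m → ℝ)))
    (f := fun z => ‖F H z‖) (ae_of_all _ fun z => norm_nonneg _) hFm.norm.aemeasurable hq0
  have e1 : ∀ z, ‖F H z‖ₑ ^ q = ENNReal.ofReal (‖F H z‖ ^ q) := by
    intro z
    rw [← ofReal_norm, ENNReal.ofReal_rpow_of_nonneg (norm_nonneg _) hq0.le]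
  simp only [e1]
  rw [h1]
  have h2 : ∫⁻ α in Ioi (0 : ℝ), volume {z | α < ‖F H z‖} * ENNReal.ofReal (α ^ (q - 1)) ≤
      ∫⁻ α in Ioc (0 : ℝ) M, ENNReal.ofReal (cm m * K ^ b * α ^ (q - 1 - b)) := by
    rw [← lintegral_indicator measurableSet_Ioi, ← lintegral_indicator measurableSet_Ioc]
    apply lintegral_mono
    intro α
    simp only
    by_cases hα : α ∈ Ioi (0 : ℝ)
    · have hα0 : 0 < α := hα
      rw [indicator_of_mem hα]
      by_cases hαM : α ≤ M
      · rw [indicator_of_mem (show α ∈ Ioc (0 : ℝ) M from ⟨hα0, hαM⟩)]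
        calc _ ≤ ENNReal.ofReal (cm m * (K / α) ^ b) * ENNReal.ofReal (α ^ (q - 1)) :=
              mul_le_mul' (weak H hH K hK hN hm α hα0) le_rfl
          _ = _ := by
              rw [← ENNReal.ofReal_mul (by positivity)]
              congr 1
              rw [Real.div_rpow hK.le hα0.le, Real.rpow_sub hα0 (q - 1) b]
              ring
      · rw [indicator_of_notMem (fun h => hαM h.2)]
        have e : {z | α < ‖F H z‖} = ∅ := by
          rw [eq_empty_iff_forall_notMem]
          intro z hz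
          exact hαM ((le_of_lt hz).trans (F_le H hH K hK hN z))
        rw [e, measure_empty, zero_mul]
    · rw [indicator_of_notMem hα]
      exact zero_le
  have h3 : ∫⁻ α in Ioc (0 : ℝ) M, ENNReal.ofReal (cm m * K ^ b * α ^ (q - 1 - b)) =
      ENNReal.ofReal (cm m * K ^ b * (M ^ (q - b) / (q - b))) := by
    have hi : IntervalIntegrable (fun α : ℝ => α ^ (q - 1 - b)) volume 0 M :=
      intervalIntegral.intervalIntegrable_rpow' (by linarith)
    have hi2 : IntegrableOn (fun α : ℝ => cm m * K ^ b * α ^ (q - 1 - b)) (Ioc 0 M) := by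
      rw [intervalIntegrable_iff_integrableOn_Ioc_of_le hM0.le] at hi
      exact hi.const_mul _
    rw [← ofReal_integral_eq_lintegral_ofReal hi2]
    · congr 1
      rw [integral_const_mul, ← intervalIntegral.integral_of_le hM0.le,
        integral_rpow (Or.inl (by linarith)), Real.zero_rpow (by linarith), sub_zero]
      congr 2
      · congr 1; ring
      · ring
    · rw [EventuallyLE, ae_restrict_iff' measurableSet_Ioc]
      exact ae_of_all _ fun α hα => by
        have := hα.1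
        simp only [Pi.zero_apply]
        positivity
  calc _ ≤ ENNReal.ofReal q * ENNReal.ofReal (cm m * K ^ b * (M ^ (q - b) / (q - b))) := by
        rw [← h3]
        exact mul_le_mul' le_rfl h2
    _ = _ := by
        rw [← ENNReal.ofReal_mul hq0.le]
        congr 1
        unfold cs
        rw [hM, Real.mul_rpow hK.le (by positivity)]
        have e : K ^ q = K ^ b * K ^ (q - b) := by
          rw [← Real.rpow_add hK]
          congr 1
          ring
        rw [e]
        ring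

/-- **the Tomas-Stein theorem for the paraboloid** -/
theorem tomas (m : ℕ) (hm : 0 < m) (q : ℝ) (hq : 2 * ((m : ℝ) + 2) / m < q) : ∃ C : ℝ≥0,
    ∀ H : (Fin m → ℝ) → ℂ, Measurable H → ∀ K : ℝ≥0∞, K ≠ ∞ → ∫⁻ v, ‖H v‖ₑ ^ 2 ≤ K ^ 2 →
    ∫⁻ t : ℝ, ∫⁻ y : Fin m → ℝ, ‖∫ v in BA 1 m, H v * em y t v‖ₑ ^ q ≤ (C * K) ^ q := by
  have hm0 : (0 : ℝ) < m := by exact_mod_cast hm
  have hq0 : 0 < q := lt_trans (by positivity) hq
  have hqb : 0 < q - 2 * ((m : ℝ) + 2) / m := by linarith
  have hcs : 0 ≤ cs m q := by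
    unfold cs cm
    positivity
  refine ⟨(cs m q ^ (1 / q)).toNNReal, ?_⟩
  intro H hH K hK hN
  have hFm := F_meas H hH
  have e1 : ∫⁻ t : ℝ, ∫⁻ y : Fin m → ℝ, ‖∫ v in BA 1 m, H v * em y t v‖ₑ ^ q =
      ∫⁻ z, ‖F H z‖ₑ ^ q := by
    rw [Measure.volume_eq_prod, lintegral_prod _ (hFm.enorm.pow_const q).aemeasurable]
    rfl
  rw [e1]
  by_cases hK0 : K = 0
  · -- the zero function
    have h0 : ∫⁻ v, ‖H v‖ₑ ^ 2 = 0 := by
      rw [hK0] at hN
      simpa using hN
    have h2 : ∀ᵐ v, ‖H v‖ₑ ^ 2 = 0 := by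
      have := (lintegral_eq_zero_iff (hH.enorm.pow_const 2)).mp h0
      filter_upwards [this] with v hv
      exact hv
    have h3 : ∀ z : ℝ × (Fin m → ℝ), F H z = 0 := by
      intro z
      unfold F
      apply integral_eq_zero_of_ae
      apply ae_restrict_of_ae
      filter_upwards [h2] with v hv
      have : H v = 0 := by
        simpa using hv
      rw [this, zero_mul]
      rfl
    simp only [h3, enorm_zero, ENNReal.zero_rpow_of_pos hq0, lintegral_zero]
    exact zero_le
  · set k : ℝ := K.toReal with hk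
    have hk0 : 0 < k := ENNReal.toReal_pos hK0 hK
    have eK : K = ENNReal.ofReal k := (ENNReal.ofReal_toReal hK).symm
    rw [eK, ← ENNReal.ofReal_pow hk0.le] at hN
    refine (strong hm q hq H hH k hk0 hN).trans (le_of_eq ?_)
    have e2 : (((cs m q ^ (1 / q)).toNNReal : ℝ≥0) : ℝ≥0∞) = ENNReal.ofReal (cs m q ^ (1 / q)) := rfl
    rw [e2, eK, ← ENNReal.ofReal_mul (by positivity),
      ENNReal.ofReal_rpow_of_nonneg (by positivity) hq0.le, Real.mul_rpow (by positivity) hk0.le,
      ← Real.rpow_mul hcs, one_div_mul_cancel hq0.ne', Real.rpow_one]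

end Pool.Agent.Y183.TS
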