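import Pool.Agent.Y183.PR.C
set_option autoImplicit false

/-! The Tomas-Stein theorem for the paraboloid: the basic inequality. -/

namespace Pool.Agent.Y183.TS

open MeasureTheory Set Filter Topology Complex
open scoped ENNReal NNReal
open Pool.Agent.W771.MD (qe em em_norm em_enorm em_cont em_meas planchM)
open Pool.Agent.Y183.LS (BA BA1_vol ec ec_norm ec_enorm ec_add ec_cont fr fr_sqrt qe_ec)
open Pool.Agent.Y183.PQ (BA1_fin)

variable {m : ℕ}

/-- the one dimensional kernel -/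
lemma k1 (y t : ℝ) (ht : t ≠ 0) : ‖∫ v in Icc (-1 : ℝ) 1, qe y t v‖ ≤ 3 * |t| ^ (-(1 / 2) : ℝ) := by
  have e1 : ∀ v : ℝ, qe y t v = ec (-(y ^ 2 / (4 * t))) * ec (t * (v + y / (2 * t)) ^ 2) := by
    intro v
    rw [qe_ec, ← ec_add]
    congr 1
    field_simp
    ring
  have e2 : ∫ v in Icc (-1 : ℝ) 1, qe y t v =
      ec (-(y ^ 2 / (4 * t))) * fr t (-1 + y / (2 * t)) (1 + y / (2 * t)) := by
    simp only [e1]
    rw [integral_Icc_eq_integral_Ioc, ← intervalIntegral.integral_of_le (by norm_num),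
      intervalIntegral.integral_const_mul]
    congr 1
    unfold fr
    rw [intervalIntegral.integral_comp_add_right (fun s => ec (t * s ^ 2))]
  rw [e2, norm_mul, ec_norm, one_mul]
  exact fr_sqrt t _ _ ht

/-- the kernel -/
lemma km (y : Fin m → ℝ) (t : ℝ) (ht : t ≠ 0) : ‖∫ v in BA 1 m, em y t v‖ ≤
    3 ^ m * |t| ^ (-((m : ℝ) / 2)) := by
  have e : ∫ v in BA 1 m, em y t v = ∏ i, ∫ v in Icc (-1 : ℝ) 1, qe (y i) t v := by
    have e1 : (BA 1 m : Set (Fin m → ℝ)) = Set.pi univ fun _ => Icc (-1 : ℝ) 1 :=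
      (Set.pi_univ_Icc _ _).symm
    rw [e1, volume_pi, Measure.restrict_pi_pi]
    unfold Pool.Agent.W771.MD.em
    rw [integral_fintype_prod_eq_prod (𝕜 := ℂ) (fun i v => qe (y i) t v)]
  rw [e, norm_prod]
  calc ∏ i, ‖∫ v in Icc (-1 : ℝ) 1, qe (y i) t v‖ ≤ ∏ _i : Fin m, (3 * |t| ^ (-(1 / 2) : ℝ)) :=
        Finset.prod_le_prod (fun i _ => norm_nonneg _) (fun i _ => k1 _ _ ht)
    _ = _ := by
        rw [Finset.prod_const, Finset.card_univ, Fintype.card_fin, mul_pow, ← Real.rpow_natCast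
          (|t| ^ (-(1 / 2) : ℝ)), ← Real.rpow_mul (abs_nonneg _)]
        congr 2
        ring

lemma em_conj (y y' : Fin m → ℝ) (t t' : ℝ) (v : Fin m → ℝ) :
    em y t v * (starRingEnd ℂ) (em y' t' v) = em (y - y') (t - t') v := by
  unfold Pool.Agent.W771.MD.em
  rw [map_prod, ← Finset.prod_mul_distrib]
  apply Finset.prod_congr rfl
  intro i _
  unfold qe
  rw [← Complex.exp_conj, ← Complex.exp_add]
  congr 1
  simp only [map_mul, Complex.conj_I, Complex.conj_ofReal, map_ofNat, Pi.sub_apply]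
  push_cast
  ring

lemma em_swap (y : Fin m → ℝ) (t : ℝ) (v : Fin m → ℝ) :
    em y t v = ec (t * ∑ i, v i ^ 2) * em v 0 y := by
  have e1 : em y t v = ec (Pool.Agent.Y183.LS.dt y v) * ec (t * Pool.Agent.Y183.LS.sq2 v) :=
    Pool.Agent.Y183.LS.em_eq y t v
  have e2 : em v 0 y = ec (Pool.Agent.Y183.LS.dt v y) * ec (0 * Pool.Agent.Y183.LS.sq2 y) :=
    Pool.Agent.Y183.LS.em_eq v 0 y
  rw [e1, e2, zero_mul, Pool.Agent.Y183.LS.ec_zero, mul_one, Pool.Agent.Y183.LS.dt_comm, mul_comm]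
  rfl

/-- the slices -/
structure Sl (u : ℝ × (Fin m → ℝ) → ℂ) : Prop where
  meas : Measurable u
  le : ∀ z, ‖u z‖ ≤ 1
  fin : ∀ t, ∫⁻ y, ‖u (t, y)‖ₑ ≠ ∞
  tot : ∫⁻ t, ∫⁻ y, ‖u (t, y)‖ₑ ≠ ∞

/-- the dual operator at fixed time -/
noncomputable def V (u : ℝ × (Fin m → ℝ) → ℂ) (t : ℝ) (v : Fin m → ℝ) : ℂ :=
  ∫ y, u (t, y) * em y t v

variable {u : ℝ × (Fin m → ℝ) → ℂ}

lemma Sl.int (hu : Sl u) (t : ℝ) : Integrable fun y => u (t, y) :=
  ⟨(hu.meas.comp (measurable_const.prodMk measurable_id)).aestronglyMeasurable,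
    (hu.fin t).lt_top⟩

lemma Sl.int_em (hu : Sl u) (t : ℝ) (v : Fin m → ℝ) : Integrable fun y => u (t, y) * em y t v := by
  refine (hu.int t).mul_bdd (c := 1) ?_ (ae_of_all _ fun y => (em_norm y t v).le)
  apply Measurable.aestronglyMeasurable
  apply Continuous.measurable
  exact em_cont.comp (show Continuous fun y : Fin m → ℝ => ((y, t), v) by fun_prop)

lemma V_meas (hu : Sl u) : Measurable (Function.uncurry (V u)) := by
  apply StronglyMeasurable.measurable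
  apply StronglyMeasurable.integral_prod_right'
    (f := fun b : (ℝ × (Fin m → ℝ)) × (Fin m → ℝ) => u (b.1.1, b.2) * em b.2 b.1.1 b.1.2)
  apply Measurable.stronglyMeasurable
  apply Measurable.mul
  · exact hu.meas.comp (by fun_prop)
  · exact em_cont.measurable.comp
      (show Measurable fun b : (ℝ × (Fin m → ℝ)) × (Fin m → ℝ) => ((b.2, b.1.1), b.1.2) by fun_prop)

lemma V_le (t : ℝ) (v : Fin m → ℝ) : ‖V u t v‖ₑ ≤ ∫⁻ y, ‖u (t, y)‖ₑ := by
  unfold V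
  refine (enorm_integral_le_lintegral_enorm _).trans (le_of_eq ?_)
  congr 1
  ext y
  rw [enorm_mul, em_enorm, mul_one]

/-- Plancherel for the slices -/
lemma V_sq (hu : Sl u) (t : ℝ) : ∫⁻ v, ‖V u t v‖ₑ ^ 2 ≤ ∫⁻ y, ‖u (t, y)‖ₑ := by
  have h1 := hu.int t
  have hle : ∀ y, ‖u (t, y)‖ₑ ^ 2 ≤ ‖u (t, y)‖ₑ := by
    intro y
    have h2 : ‖u (t, y)‖ₑ ≤ 1 := by
      rw [← ofReal_norm, ← ENNReal.ofReal_one]
      exact ENNReal.ofReal_le_ofReal (hu.le _)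
    calc ‖u (t, y)‖ₑ ^ 2 = ‖u (t, y)‖ₑ * ‖u (t, y)‖ₑ := sq _
      _ ≤ ‖u (t, y)‖ₑ * 1 := mul_le_mul' le_rfl h2
      _ = _ := mul_one _
  have h2 : MemLp (fun y => u (t, y)) 2 := by
    refine ⟨h1.1, ?_⟩
    rw [eLpNorm_lt_top_iff_lintegral_rpow_enorm_lt_top (by norm_num) (by norm_num)]
    simp only [ENNReal.toReal_ofNat, ENNReal.rpow_ofNat]
    exact lt_of_le_of_lt (lintegral_mono hle) (hu.fin t).lt_top
  have h3 := planchM (fun y => u (t, y)) h1 h2 0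
  calc ∫⁻ v, ‖V u t v‖ₑ ^ 2 = ∫⁻ v, ‖∫ y, u (t, y) * em v 0 y‖ₑ ^ 2 := by
        congr 1
        ext v
        have e : V u t v = ec (t * ∑ i, v i ^ 2) * ∫ y, u (t, y) * em v 0 y := by
          unfold V
          rw [← integral_const_mul]
          congr 1
          ext y
          rw [em_swap]
          ring
        rw [e, enorm_mul, ec_enorm, one_mul]
    _ = ∫⁻ y, ‖u (t, y)‖ₑ ^ 2 := h3
    _ ≤ _ := lintegral_mono hle

/-- the correlation -/
noncomputable def Bc (u : ℝ × (Fin m → ℝ) → ℂ) (t t' : ℝ) : ℂ :=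
  ∫ v in BA 1 m, V u t v * (starRingEnd ℂ) (V u t' v)

lemma Bc_near (hu : Sl u) (t t' : ℝ) :
    ‖Bc u t t'‖ₑ ≤ (∫⁻ y, ‖u (t, y)‖ₑ) + ∫⁻ y, ‖u (t', y)‖ₑ := by
  unfold Bc
  refine (enorm_integral_le_lintegral_enorm _).trans ?_
  have hV := V_meas hu
  have hm1 : Measurable fun v => ‖V u t v‖ₑ ^ 2 :=
    (hV.comp (measurable_const.prodMk measurable_id)).enorm.pow_const 2
  have hpt : ∀ v, ‖V u t v * (starRingEnd ℂ) (V u t' v)‖ₑ ≤ ‖V u t v‖ₑ ^ 2 + ‖V u t' v‖ₑ ^ 2 := by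
    intro v
    rw [enorm_mul]
    have e : ‖(starRingEnd ℂ) (V u t' v)‖ₑ = ‖V u t' v‖ₑ := by
      rw [← ofReal_norm, ← ofReal_norm, RCLike.norm_conj]
    rw [e]
    rcases le_total (‖V u t v‖ₑ) (‖V u t' v‖ₑ) with h | h
    · calc _ ≤ ‖V u t' v‖ₑ * ‖V u t' v‖ₑ := mul_le_mul' h le_rfl
        _ = ‖V u t' v‖ₑ ^ 2 := (sq _).symm
        _ ≤ _ := le_add_self
    · calc _ ≤ ‖V u t v‖ₑ * ‖V u t v‖ₑ := mul_le_mul' le_rfl h
        _ = ‖V u t v‖ₑ ^ 2 := (sq _).symm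
        _ ≤ _ := le_self_add
  calc ∫⁻ v in BA 1 m, ‖V u t v * (starRingEnd ℂ) (V u t' v)‖ₑ ≤
      ∫⁻ v, (‖V u t v‖ₑ ^ 2 + ‖V u t' v‖ₑ ^ 2) :=
        (setLIntegral_le_lintegral _ _).trans (lintegral_mono hpt)
    _ = (∫⁻ v, ‖V u t v‖ₑ ^ 2) + ∫⁻ v, ‖V u t' v‖ₑ ^ 2 := lintegral_add_left hm1 _
    _ ≤ _ := add_le_add (V_sq hu t) (V_sq hu t')

lemma Bc_far (hu : Sl u) (t t' : ℝ) (ht : t ≠ t') :
    ‖Bc u t t'‖ₑ ≤ ENNReal.ofReal (3 ^ m * |t - t'| ^ (-((m : ℝ) / 2))) *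
      ((∫⁻ y, ‖u (t, y)‖ₑ) * ∫⁻ y, ‖u (t', y)‖ₑ) := by
  have hf : IsFiniteMeasure ((volume : Measure (Fin m → ℝ)).restrict (BA 1 m)) := ⟨by
    rw [Measure.restrict_apply_univ]; exact BA1_fin.lt_top⟩
  set w : (Fin m → ℝ) × (Fin m → ℝ) → ℂ :=
    fun p => u (t, p.1) * (starRingEnd ℂ) (u (t', p.2)) with hw
  have hst : Integrable fun y => (starRingEnd ℂ) (u (t', y)) := by
    refine (hu.int t').mono ?_ (ae_of_all _ fun y => by rw [RCLike.norm_conj])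
    exact (Complex.continuous_conj.measurable.comp
      (hu.meas.comp (measurable_const.prodMk measurable_id))).aestronglyMeasurable
  have hw1 : Integrable w ((volume : Measure (Fin m → ℝ)).prod volume) :=
    (hu.int t).mul_prod hst
  have e1 : ∀ v, V u t v * (starRingEnd ℂ) (V u t' v) =
      ∫ p, w p * em (p.1 - p.2) (t - t') v ∂((volume : Measure (Fin m → ℝ)).prod volume) := by
    intro v
    unfold V
    rw [← integral_conj, ← integral_prod_mul]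
    congr 1
    ext p
    rw [hw, ← em_conj, map_mul]
    ring
  have hcont : Continuous fun b : (Fin m → ℝ) × ((Fin m → ℝ) × (Fin m → ℝ)) =>
      em (b.2.1 - b.2.2) (t - t') b.1 :=
    em_cont.comp (show Continuous fun b : (Fin m → ℝ) × ((Fin m → ℝ) × (Fin m → ℝ)) =>
      ((b.2.1 - b.2.2, t - t'), b.1) by fun_prop)
  have hint : Integrable (fun b : (Fin m → ℝ) × ((Fin m → ℝ) × (Fin m → ℝ)) =>
      w b.2 * em (b.2.1 - b.2.2) (t - t') b.1)
      ((volume.restrict (BA 1 m)).prod ((volume : Measure (Fin m → ℝ)).prod volume)) := by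
    refine (hw1.comp_snd _).mul_bdd (c := 1) hcont.measurable.aestronglyMeasurable
      (ae_of_all _ fun b => (em_norm _ _ _).le)
  unfold Bc
  simp only [e1]
  rw [integral_integral_swap hint]
  have e2 : ∀ p : (Fin m → ℝ) × (Fin m → ℝ), ∫ v in BA 1 m, w p * em (p.1 - p.2) (t - t') v =
      w p * ∫ v in BA 1 m, em (p.1 - p.2) (t - t') v := fun p => integral_const_mul _ _
  simp only [e2]
  refine (enorm_integral_le_lintegral_enorm _).trans ?_
  have e3 : (∫⁻ y, ‖u (t, y)‖ₑ) * ∫⁻ y, ‖u (t', y)‖ₑ =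
      ∫⁻ p, ‖w p‖ₑ ∂((volume : Measure (Fin m → ℝ)).prod volume) := by
    rw [← lintegral_prod_mul (hu.int t).1.enorm (hu.int t').1.enorm]
    congr 1
    ext p
    rw [hw, enorm_mul]
    congr 1
    rw [← ofReal_norm, ← ofReal_norm, RCLike.norm_conj]
  rw [e3, ← lintegral_const_mul' _ _ ENNReal.ofReal_ne_top]
  apply lintegral_mono
  intro p
  show ‖w p * ∫ v in BA 1 m, em (p.1 - p.2) (t - t') v‖ₑ ≤ _
  rw [enorm_mul, mul_comm]
  apply mul_le_mul' _ le_rfl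
  rw [← ofReal_norm]
  exact ENNReal.ofReal_le_ofReal (km _ _ (sub_ne_zero.mpr ht))

end Pool.Agent.Y183.TS
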