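import Pool.Agent.Y183.TS.A
set_option autoImplicit false

/-! The Tomas-Stein theorem for the paraboloid: the dual operator. -/

namespace Pool.Agent.Y183.TS

open MeasureTheory Set Filter Topology Complex
open scoped ENNReal NNReal
open Pool.Agent.W771.MD (qe em em_norm em_enorm em_cont em_meas planchM)
open Pool.Agent.Y183.LS (BA BA1_vol)
open Pool.Agent.Y183.PQ (BA1_fin)

variable {m : ℕ} {u : ℝ × (Fin m → ℝ) → ℂ}

/-- the dual operator -/
noncomputable def U (u : ℝ × (Fin m → ℝ) → ℂ) (v : Fin m → ℝ) : ℂ := ∫ t, V u t v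

/-- the total mass -/
noncomputable def S (u : ℝ × (Fin m → ℝ) → ℂ) : ℝ≥0∞ := ∫⁻ t, ∫⁻ y, ‖u (t, y)‖ₑ

lemma a_meas (hu : Sl u) : Measurable fun t => ∫⁻ y, ‖u (t, y)‖ₑ :=
  hu.meas.enorm.lintegral_prod_right'

lemma V_meas_t (hu : Sl u) (v : Fin m → ℝ) : Measurable fun t => V u t v :=
  (V_meas hu).comp (measurable_id.prodMk measurable_const)

lemma V_int (hu : Sl u) (v : Fin m → ℝ) : Integrable fun t => V u t v :=
  ⟨(V_meas_t hu v).aestronglyMeasurable,
    lt_of_le_of_lt (lintegral_mono fun t => V_le t v) hu.tot.lt_top⟩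

lemma U_meas (hu : Sl u) : Measurable (U u) := by
  apply StronglyMeasurable.measurable
  apply StronglyMeasurable.integral_prod_right'
    (f := fun b : (Fin m → ℝ) × ℝ => V u b.2 b.1)
  exact ((V_meas hu).comp measurable_swap).stronglyMeasurable

lemma U_le (v : Fin m → ℝ) : ‖U u v‖ₑ ≤ S u := by
  unfold U S
  exact (enorm_integral_le_lintegral_enorm _).trans (lintegral_mono fun t => V_le t v)

lemma sq_conj {α : Type*} [MeasurableSpace α] (μ : Measure α) (f : α → ℂ)
    (hf : MemLp f 2 μ) : ∫⁻ x, ‖f x‖ₑ ^ 2 ∂μ = ‖∫ x, f x * (starRingEnd ℂ) (f x) ∂μ‖ₑ := by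
  have e1 : ∀ x, f x * (starRingEnd ℂ) (f x) = ((‖f x‖ ^ 2 : ℝ) : ℂ) := by
    intro x
    rw [Complex.mul_conj, Complex.normSq_eq_norm_sq]
  simp only [e1]
  rw [integral_complex_ofReal]
  have h0 : 0 ≤ ∫ x, ‖f x‖ ^ 2 ∂μ := integral_nonneg fun x => sq_nonneg _
  rw [← ofReal_norm, Complex.norm_real, Real.norm_eq_abs, abs_of_nonneg h0,
    ofReal_integral_eq_lintegral_ofReal]
  · congr 1
    ext x
    rw [ENNReal.ofReal_pow (norm_nonneg _), ofReal_norm]
  · exact (memLp_two_iff_integrable_sq_norm hf.1).mp hf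
  · exact ae_of_all _ fun x => sq_nonneg _

/-- **the dual estimate** -/
lemma U_sq (hu : Sl u) (T : ℝ) (hT : 0 < T) : ∫⁻ v in BA 1 m, ‖U u v‖ₑ ^ 2 ≤
    ENNReal.ofReal (4 * T) * S u + ENNReal.ofReal (3 ^ m * T ^ (-((m : ℝ) / 2))) * (S u * S u) := by
  have hf : IsFiniteMeasure ((volume : Measure (Fin m → ℝ)).restrict (BA 1 m)) := ⟨by
    rw [Measure.restrict_apply_univ]; exact BA1_fin.lt_top⟩
  have hST : S u ≠ ∞ := hu.tot
  have hV := V_meas hu
  set a : ℝ → ℝ≥0∞ := fun t => ∫⁻ y, ‖u (t, y)‖ₑ with ha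
  have ham : Measurable a := a_meas hu
  have hU2 : MemLp (U u) 2 (volume.restrict (BA 1 m)) := by
    refine ⟨(U_meas hu).aestronglyMeasurable, ?_⟩
    rw [eLpNorm_lt_top_iff_lintegral_rpow_enorm_lt_top (by norm_num) (by norm_num)]
    simp only [ENNReal.toReal_ofNat, ENNReal.rpow_ofNat]
    calc ∫⁻ v in BA 1 m, ‖U u v‖ₑ ^ 2 ≤ ∫⁻ _v in BA 1 m, S u ^ 2 :=
          lintegral_mono fun v => pow_le_pow_left' (U_le v) 2
      _ = S u ^ 2 * volume (BA 1 m) := by rw [setLIntegral_const]
      _ < ∞ := ENNReal.mul_lt_top (ENNReal.pow_lt_top hST.lt_top) BA1_fin.lt_top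
  rw [sq_conj _ _ hU2]
  -- the double integral
  have e1 : ∀ v, U u v * (starRingEnd ℂ) (U u v) =
      ∫ p : ℝ × ℝ, V u p.1 v * (starRingEnd ℂ) (V u p.2 v) := by
    intro v
    unfold U
    rw [← integral_conj, ← integral_prod_mul]
    rfl
  have hmeas3 : Measurable fun b : (Fin m → ℝ) × (ℝ × ℝ) =>
      V u b.2.1 b.1 * (starRingEnd ℂ) (V u b.2.2 b.1) := by
    apply Measurable.mul
    · exact hV.comp (show Measurable fun b : (Fin m → ℝ) × (ℝ × ℝ) => (b.2.1, b.1) by fun_prop)
    · exact Complex.continuous_conj.measurable.comp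
        (hV.comp (show Measurable fun b : (Fin m → ℝ) × (ℝ × ℝ) => (b.2.2, b.1) by fun_prop))
  have hint : Integrable (fun b : (Fin m → ℝ) × (ℝ × ℝ) =>
      V u b.2.1 b.1 * (starRingEnd ℂ) (V u b.2.2 b.1))
      ((volume.restrict (BA 1 m)).prod (volume : Measure (ℝ × ℝ))) := by
    refine ⟨hmeas3.aestronglyMeasurable, ?_⟩
    unfold HasFiniteIntegral
    rw [lintegral_prod _ hmeas3.enorm.aemeasurable]
    have hb : ∀ v : Fin m → ℝ, ∫⁻ p : ℝ × ℝ, ‖V u p.1 v * (starRingEnd ℂ) (V u p.2 v)‖ₑ ≤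
        S u * S u := by
      intro v
      calc ∫⁻ p : ℝ × ℝ, ‖V u p.1 v * (starRingEnd ℂ) (V u p.2 v)‖ₑ ≤
          ∫⁻ p : ℝ × ℝ, a p.1 * a p.2 := by
            apply lintegral_mono
            intro p
            show ‖V u p.1 v * (starRingEnd ℂ) (V u p.2 v)‖ₑ ≤ a p.1 * a p.2
            rw [enorm_mul]
            have e : ‖(starRingEnd ℂ) (V u p.2 v)‖ₑ = ‖V u p.2 v‖ₑ := by
              rw [← ofReal_norm, ← ofReal_norm, RCLike.norm_conj]
            rw [e]
            exact mul_le_mul' (V_le _ _) (V_le _ _)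
        _ = S u * S u := lintegral_prod_mul ham.aemeasurable ham.aemeasurable
    calc ∫⁻ v in BA 1 m, ∫⁻ p : ℝ × ℝ, ‖V u p.1 v * (starRingEnd ℂ) (V u p.2 v)‖ₑ ≤
        ∫⁻ _v in BA 1 m, S u * S u := lintegral_mono hb
      _ = (S u * S u) * volume (BA 1 m) := by rw [setLIntegral_const]
      _ < ∞ := ENNReal.mul_lt_top (ENNReal.mul_lt_top hST.lt_top hST.lt_top) BA1_fin.lt_top
  simp only [e1]
  rw [integral_integral_swap hint]
  refine (enorm_integral_le_lintegral_enorm _).trans ?_
  -- the bound of the correlation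
  set I₀ : Set (ℝ × ℝ) := {p | |p.1 - p.2| ≤ T} with hI₀
  have hI₀m : MeasurableSet I₀ := measurableSet_le (by fun_prop) measurable_const
  have hb : ∀ p : ℝ × ℝ, ‖∫ v in BA 1 m, V u p.1 v * (starRingEnd ℂ) (V u p.2 v)‖ₑ ≤
      I₀.indicator (fun p => a p.1 + a p.2) p +
        ENNReal.ofReal (3 ^ m * T ^ (-((m : ℝ) / 2))) * (a p.1 * a p.2) := by
    intro p
    by_cases hp : p ∈ I₀
    · rw [indicator_of_mem hp]
      exact (Bc_near hu p.1 p.2).trans le_self_add
    · rw [indicator_of_notMem hp, zero_add]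
      have hp' : T < |p.1 - p.2| := by
        rw [hI₀] at hp
        simp only [mem_setOf_eq, not_le] at hp
        exact hp
      have hne : p.1 ≠ p.2 := by
        intro h
        rw [h, sub_self, abs_zero] at hp'
        linarith
      refine (Bc_far hu p.1 p.2 hne).trans ?_
      apply mul_le_mul' _ le_rfl
      apply ENNReal.ofReal_le_ofReal
      apply mul_le_mul_of_nonneg_left _ (by positivity)
      apply Real.rpow_le_rpow_of_nonpos hT hp'.le
      have : (0 : ℝ) ≤ m := Nat.cast_nonneg m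
      linarith
  refine (lintegral_mono hb).trans ?_
  have hm1 : Measurable fun p : ℝ × ℝ => I₀.indicator (fun p => a p.1 + a p.2) p :=
    ((ham.comp measurable_fst).add (ham.comp measurable_snd)).indicator hI₀m
  have hm2 : Measurable fun p : ℝ × ℝ => I₀.indicator (fun p => a p.1) p :=
    (ham.comp measurable_fst).indicator hI₀m
  have hm3 : Measurable fun p : ℝ × ℝ => I₀.indicator (fun p => a p.2) p :=
    (ham.comp measurable_snd).indicator hI₀m
  rw [lintegral_add_left hm1]
  apply add_le_add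
  · -- near
    have h1 : ∫⁻ p : ℝ × ℝ, I₀.indicator (fun p => a p.1 + a p.2) p =
        (∫⁻ p : ℝ × ℝ, I₀.indicator (fun p => a p.1) p) +
          ∫⁻ p : ℝ × ℝ, I₀.indicator (fun p => a p.2) p := by
      rw [← lintegral_add_left hm2]
      congr 1
      ext p
      by_cases hp : p ∈ I₀
      · simp only [indicator_of_mem hp]
      · simp only [indicator_of_notMem hp, add_zero]
    have h2 : ∫⁻ p : ℝ × ℝ, I₀.indicator (fun p => a p.1) p = ENNReal.ofReal (2 * T) * S u := by
      rw [Measure.volume_eq_prod, lintegral_prod _ hm2.aemeasurable]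
      have e : ∀ t : ℝ, ∫⁻ t' : ℝ, I₀.indicator (fun p => a p.1) (t, t') =
          ENNReal.ofReal (2 * T) * a t := by
        intro t
        have e2 : (fun t' : ℝ => I₀.indicator (fun p => a p.1) (t, t')) =
            (Icc (t - T) (t + T)).indicator fun _ => a t := by
          ext t'
          by_cases h : (t, t') ∈ I₀
          · rw [indicator_of_mem h, indicator_of_mem]
            rw [hI₀, mem_setOf_eq, abs_le] at h
            exact ⟨by linarith [h.2], by linarith [h.1]⟩
          · rw [indicator_of_notMem h, indicator_of_notMem]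
            intro h3
            apply h
            rw [hI₀, mem_setOf_eq, abs_le]
            exact ⟨by linarith [h3.2], by linarith [h3.1]⟩
        rw [e2, lintegral_indicator_const measurableSet_Icc, Real.volume_Icc, mul_comm]
        congr 2
        ring
      simp only [e]
      rw [lintegral_const_mul _ ham]
      rfl
    have h3 : ∫⁻ p : ℝ × ℝ, I₀.indicator (fun p => a p.2) p = ENNReal.ofReal (2 * T) * S u := by
      rw [Measure.volume_eq_prod, lintegral_prod_symm _ hm3.aemeasurable]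
      have e : ∀ t : ℝ, ∫⁻ t' : ℝ, I₀.indicator (fun p => a p.2) (t', t) =
          ENNReal.ofReal (2 * T) * a t := by
        intro t
        have e2 : (fun t' : ℝ => I₀.indicator (fun p => a p.2) (t', t)) =
            (Icc (t - T) (t + T)).indicator fun _ => a t := by
          ext t'
          by_cases h : (t', t) ∈ I₀
          · rw [indicator_of_mem h, indicator_of_mem]
            rw [hI₀, mem_setOf_eq, abs_le] at h
            exact ⟨by linarith [h.1], by linarith [h.2]⟩
          · rw [indicator_of_notMem h, indicator_of_notMem]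
            intro h3
            apply h
            rw [hI₀, mem_setOf_eq, abs_le]
            exact ⟨by linarith [h3.1], by linarith [h3.2]⟩
        rw [e2, lintegral_indicator_const measurableSet_Icc, Real.volume_Icc, mul_comm]
        congr 2
        ring
      simp only [e]
      rw [lintegral_const_mul _ ham]
      rfl
    rw [h1, h2, h3, ← add_mul, ← ENNReal.ofReal_add (by positivity) (by positivity)]
    apply le_of_eq
    congr 2
    ring
  · -- far
    rw [lintegral_const_mul' _ _ ENNReal.ofReal_ne_top]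
    apply mul_le_mul' le_rfl
    apply le_of_eq
    exact lintegral_prod_mul ham.aemeasurable ham.aemeasurable

/-- **the pairing** -/
lemma pairing (hu : Sl u) (H : (Fin m → ℝ) → ℂ) (hH : Measurable H)
    (hH2 : ∫⁻ v, ‖H v‖ₑ ^ 2 ≠ ∞) :
    ‖∫ z : ℝ × (Fin m → ℝ), u z * ∫ v in BA 1 m, H v * em z.2 z.1 v‖ₑ ≤
      (∫⁻ v, ‖H v‖ₑ ^ 2) ^ (1 / 2 : ℝ) * (∫⁻ v in BA 1 m, ‖U u v‖ₑ ^ 2) ^ (1 / 2 : ℝ) := by
  have hf : IsFiniteMeasure ((volume : Measure (Fin m → ℝ)).restrict (BA 1 m)) := ⟨by
    rw [Measure.restrict_apply_univ]; exact BA1_fin.lt_top⟩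
  have hHi : IntegrableOn H (BA 1 m) :=
    (Pool.Agent.Y183.PQ.sq_memLp H hH _
      (ne_top_of_le_ne_top hH2 (setLIntegral_le_lintegral _ _))).integrable (by norm_num)
  have hui : Integrable u := by
    refine ⟨hu.meas.aestronglyMeasurable, ?_⟩
    unfold HasFiniteIntegral
    rw [Measure.volume_eq_prod, lintegral_prod _ hu.meas.enorm.aemeasurable]
    exact hu.tot.lt_top
  have hcont : Continuous fun b : (ℝ × (Fin m → ℝ)) × (Fin m → ℝ) => em b.1.2 b.1.1 b.2 :=
    em_cont.comp (show Continuous fun b : (ℝ × (Fin m → ℝ)) × (Fin m → ℝ) =>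
      ((b.1.2, b.1.1), b.2) by fun_prop)
  have hint : Integrable (fun b : (ℝ × (Fin m → ℝ)) × (Fin m → ℝ) =>
      (u b.1 * H b.2) * em b.1.2 b.1.1 b.2)
      ((volume : Measure (ℝ × (Fin m → ℝ))).prod (volume.restrict (BA 1 m))) :=
    (hui.mul_prod hHi).mul_bdd (c := 1) hcont.measurable.aestronglyMeasurable
      (ae_of_all _ fun b => (em_norm _ _ _).le)
  have e1 : ∀ z : ℝ × (Fin m → ℝ), u z * ∫ v in BA 1 m, H v * em z.2 z.1 v =
      ∫ v in BA 1 m, (u z * H v) * em z.2 z.1 v := by
    intro z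
    rw [← integral_const_mul]
    congr 1
    ext v
    ring
  simp only [e1]
  rw [integral_integral_swap hint]
  have e2 : ∀ v : Fin m → ℝ, ∫ z : ℝ × (Fin m → ℝ), (u z * H v) * em z.2 z.1 v = H v * U u v := by
    intro v
    have e3 : ∀ z : ℝ × (Fin m → ℝ), (u z * H v) * em z.2 z.1 v = H v * (u z * em z.2 z.1 v) := by
      intro z
      ring
    simp only [e3]
    rw [integral_const_mul]
    congr 1
    unfold U V
    have hi : Integrable (fun z : ℝ × (Fin m → ℝ) => u z * em z.2 z.1 v) := by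
      refine hui.mul_bdd (c := 1) ?_ (ae_of_all _ fun z => (em_norm _ _ _).le)
      apply Measurable.aestronglyMeasurable
      apply Continuous.measurable
      exact em_cont.comp (show Continuous fun z : ℝ × (Fin m → ℝ) => ((z.2, z.1), v) by fun_prop)
    rw [Measure.volume_eq_prod, integral_prod _ hi]
  simp only [e2]
  refine (enorm_integral_le_lintegral_enorm _).trans ?_
  simp only [enorm_mul]
  have hCS := ENNReal.lintegral_mul_le_Lp_mul_Lq (μ := (volume : Measure (Fin m → ℝ)).restrict (BA 1 m))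
    Real.HolderConjugate.two_two hH.enorm.aemeasurable (U_meas hu).enorm.aemeasurable
  simp only [Pi.mul_apply, ENNReal.rpow_ofNat] at hCS
  refine hCS.trans ?_
  apply mul_le_mul' _ le_rfl
  exact ENNReal.rpow_le_rpow (setLIntegral_le_lintegral _ _) (by norm_num)

end Pool.Agent.Y183.TS
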