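import Pool.Agent.Y183.TS.B
set_option autoImplicit false

/-! The Tomas-Stein theorem for the paraboloid: the level sets. -/

namespace Pool.Agent.Y183.TS

open MeasureTheory Set Filter Topology Complex
open scoped ENNReal NNReal
open Pool.Agent.W771.MD (qe em em_norm em_enorm em_cont em_meas planchM)
open Pool.Agent.Y183.LS (BA BA1_vol)
open Pool.Agent.Y183.PQ (BA1_fin)

variable {m : ℕ}

/-- the operator -/
noncomputable def F (H : (Fin m → ℝ) → ℂ) (z : ℝ × (Fin m → ℝ)) : ℂ :=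
  ∫ v in BA 1 m, H v * em z.2 z.1 v

variable (H : (Fin m → ℝ) → ℂ) (hH : Measurable H) (K : ℝ) (hK : 0 < K)
  (hN : ∫⁻ v, ‖H v‖ₑ ^ 2 ≤ ENNReal.ofReal (K ^ 2))

include hH in
lemma F_meas : Measurable (F H) := by
  apply StronglyMeasurable.measurable
  apply StronglyMeasurable.integral_prod_right'
    (f := fun b : (ℝ × (Fin m → ℝ)) × (Fin m → ℝ) => H b.2 * em b.1.2 b.1.1 b.2)
  apply Measurable.stronglyMeasurable
  apply Measurable.mul
  · exact hH.comp measurable_snd
  · exact em_cont.measurable.comp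
      (show Measurable fun b : (ℝ × (Fin m → ℝ)) × (Fin m → ℝ) => ((b.1.2, b.1.1), b.2) by fun_prop)

include hN in
lemma H_fin : ∫⁻ v, ‖H v‖ₑ ^ 2 ≠ ∞ := ne_top_of_le_ne_top ENNReal.ofReal_ne_top hN

include hH hN hK in
lemma F_le (z : ℝ × (Fin m → ℝ)) : ‖F H z‖ ≤ K * 2 ^ ((m : ℝ) / 2) := by
  have h1 : ‖F H z‖ₑ ≤ ENNReal.ofReal (K * 2 ^ ((m : ℝ) / 2)) := by
    unfold F
    refine (enorm_integral_le_lintegral_enorm _).trans ?_
    have e : ∀ v, ‖H v * em z.2 z.1 v‖ₑ = ‖H v‖ₑ * 1 := by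
      intro v
      rw [enorm_mul, em_enorm]
    simp only [e]
    have hCS := ENNReal.lintegral_mul_le_Lp_mul_Lq (μ := (volume : Measure (Fin m → ℝ)).restrict (BA 1 m))
      Real.HolderConjugate.two_two hH.enorm.aemeasurable (aemeasurable_const (b := (1 : ℝ≥0∞)))
    simp only [Pi.mul_apply, ENNReal.rpow_ofNat, one_pow, lintegral_const, one_mul,
      Measure.restrict_apply_univ] at hCS
    refine hCS.trans ?_
    have h2 : (∫⁻ v in BA 1 m, ‖H v‖ₑ ^ 2) ^ (1 / 2 : ℝ) ≤ ENNReal.ofReal K := by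
      calc _ ≤ (ENNReal.ofReal (K ^ 2)) ^ (1 / 2 : ℝ) :=
            ENNReal.rpow_le_rpow ((setLIntegral_le_lintegral _ _).trans hN) (by norm_num)
        _ = _ := by
            rw [ENNReal.ofReal_rpow_of_pos (by positivity), ← Real.sqrt_eq_rpow,
              Real.sqrt_sq hK.le]
    have h3 : (volume (BA 1 m : Set (Fin m → ℝ))) ^ (1 / 2 : ℝ) =
        ENNReal.ofReal (2 ^ ((m : ℝ) / 2)) := by
      rw [BA1_vol, ← ENNReal.rpow_natCast, ← ENNReal.rpow_mul,
        ← ENNReal.ofReal_rpow_of_pos (by norm_num), ENNReal.ofReal_ofNat]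
      congr 1
      ring
    rw [h3, ENNReal.ofReal_mul hK.le]
    exact mul_le_mul' h2 le_rfl
  rw [← ofReal_norm] at h1
  exact (ENNReal.ofReal_le_ofReal_iff (by positivity)).mp h1

include hH hN in
lemma F_slice (t : ℝ) : ∫⁻ y, ‖F H (t, y)‖ₑ ^ 2 ≤ ENNReal.ofReal (K ^ 2) := by
  have hf : IsFiniteMeasure ((volume : Measure (Fin m → ℝ)).restrict (BA 1 m)) := ⟨by
    rw [Measure.restrict_apply_univ]; exact BA1_fin.lt_top⟩
  have hQ : MeasurableSet (BA 1 m : Set (Fin m → ℝ)) := measurableSet_Icc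
  have h2 : MemLp H 2 (volume.restrict (BA 1 m)) := Pool.Agent.Y183.PQ.sq_memLp H hH _
      (ne_top_of_le_ne_top (H_fin H K hN) (setLIntegral_le_lintegral _ _))
  have k1 : Integrable ((BA 1 m).indicator H) :=
    (integrable_indicator_iff hQ).mpr (h2.integrable (by norm_num))
  have k2 : MemLp ((BA 1 m).indicator H) 2 := (memLp_indicator_iff_restrict hQ).mpr h2
  have h3 := planchM _ k1 k2 t
  calc ∫⁻ y, ‖F H (t, y)‖ₑ ^ 2 = ∫⁻ y, ‖∫ v, (BA 1 m).indicator H v * em y t v‖ₑ ^ 2 := by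
        congr 1
        ext y
        unfold F
        rw [← integral_indicator hQ]
        congr 3
        ext v
        by_cases h : v ∈ BA 1 m
        · rw [indicator_of_mem h, indicator_of_mem h]
        · rw [indicator_of_notMem h, indicator_of_notMem h, zero_mul]
    _ = ∫⁻ v, ‖(BA 1 m).indicator H v‖ₑ ^ 2 := h3
    _ ≤ ∫⁻ v, ‖H v‖ₑ ^ 2 := by
        apply lintegral_mono
        intro v
        apply pow_le_pow_left'
        by_cases h : v ∈ BA 1 m
        · rw [indicator_of_mem h]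
        · rw [indicator_of_notMem h]; simp
    _ ≤ _ := hN

/-- the level sets in bounded time -/
def AN (α : ℝ) (N : ℝ) : Set (ℝ × (Fin m → ℝ)) := {z | |z.1| ≤ N ∧ α < ‖F H z‖}

include hH in
lemma AN_meas (α N : ℝ) : MeasurableSet (AN H α N) := by
  apply MeasurableSet.inter
  · exact measurableSet_le (f := fun z : ℝ × (Fin m → ℝ) => |z.1|)
      (continuous_abs.measurable.comp measurable_fst) measurable_const
  · exact measurableSet_lt measurable_const (F_meas H hH).norm

/-- the test function -/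
noncomputable def uu (α N : ℝ) (z : ℝ × (Fin m → ℝ)) : ℂ :=
  (AN H α N).indicator (fun z => (starRingEnd ℂ) (F H z) * ((‖F H z‖⁻¹ : ℝ) : ℂ)) z

lemma uu_enorm (α N : ℝ) (hα : 0 < α) (z : ℝ × (Fin m → ℝ)) :
    ‖uu H α N z‖ₑ = (AN H α N).indicator (fun _ => 1) z := by
  unfold uu
  by_cases h : z ∈ AN H α N
  · rw [indicator_of_mem h, indicator_of_mem h]
    have h0 : ‖F H z‖ ≠ 0 := (hα.trans h.2).ne'
    rw [← ofReal_norm, norm_mul, RCLike.norm_conj, Complex.norm_real, norm_inv, norm_norm,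
      mul_inv_cancel₀ h0, ENNReal.ofReal_one]
  · rw [indicator_of_notMem h, indicator_of_notMem h, enorm_zero]

include hH hN in
lemma uu_slice (α N : ℝ) (hα : 0 < α) (t : ℝ) : ∫⁻ y, ‖uu H α N (t, y)‖ₑ ≤
    (Icc (-N) N).indicator (fun _ => ENNReal.ofReal (K ^ 2 / α ^ 2)) t := by
  by_cases ht : t ∈ Icc (-N) N
  · rw [indicator_of_mem ht]
    have hpt : ∀ y, ‖uu H α N (t, y)‖ₑ ≤ ENNReal.ofReal (1 / α ^ 2) * ‖F H (t, y)‖ₑ ^ 2 := by
      intro y
      rw [uu_enorm H α N hα]
      by_cases h : (t, y) ∈ AN H α N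
      · rw [indicator_of_mem h, ← ofReal_norm, ← ENNReal.ofReal_pow (norm_nonneg _),
          ← ENNReal.ofReal_mul (by positivity), ← ENNReal.ofReal_one]
        apply ENNReal.ofReal_le_ofReal
        rw [one_div, inv_mul_eq_div, le_div_iff₀ (by positivity), one_mul]
        have := h.2.le
        gcongr
      · rw [indicator_of_notMem h]
        exact zero_le
    calc _ ≤ ∫⁻ y, ENNReal.ofReal (1 / α ^ 2) * ‖F H (t, y)‖ₑ ^ 2 := lintegral_mono hpt
      _ = ENNReal.ofReal (1 / α ^ 2) * ∫⁻ y, ‖F H (t, y)‖ₑ ^ 2 :=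
          lintegral_const_mul' _ _ ENNReal.ofReal_ne_top
      _ ≤ ENNReal.ofReal (1 / α ^ 2) * ENNReal.ofReal (K ^ 2) :=
          mul_le_mul' le_rfl (F_slice H hH K hN t)
      _ = _ := by
          rw [← ENNReal.ofReal_mul (by positivity)]
          congr 1
          ring
  · rw [indicator_of_notMem ht]
    have e : ∀ y, ‖uu H α N (t, y)‖ₑ = 0 := by
      intro y
      rw [uu_enorm H α N hα, indicator_of_notMem]
      intro h
      apply ht
      have := h.1
      rw [abs_le] at this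
      exact this
    simp [e]

include hH hN in
lemma uu_sl (α N : ℝ) (hα : 0 < α) : Sl (uu H α N) := by
  refine ⟨?_, ?_, ?_, ?_⟩
  · apply Measurable.indicator _ (AN_meas H hH α N)
    apply Measurable.mul
    · exact Complex.continuous_conj.measurable.comp (F_meas H hH)
    · exact Complex.measurable_ofReal.comp (F_meas H hH).norm.inv
  · intro z
    have h1 : ‖uu H α N z‖ₑ ≤ 1 := by
      rw [uu_enorm H α N hα]
      by_cases h : z ∈ AN H α N
      · rw [indicator_of_mem h]
      · rw [indicator_of_notMem h]; exact zero_le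
    rw [← ofReal_norm, ← ENNReal.ofReal_one] at h1
    exact (ENNReal.ofReal_le_ofReal_iff zero_le_one).mp h1
  · intro t
    refine ne_top_of_le_ne_top ?_ (uu_slice H hH K hN α N hα t)
    by_cases ht : t ∈ Icc (-N) N
    · rw [indicator_of_mem ht]; exact ENNReal.ofReal_ne_top
    · rw [indicator_of_notMem ht]; exact ENNReal.zero_ne_top
  · refine ne_top_of_le_ne_top ?_ (lintegral_mono fun t => uu_slice H hH K hN α N hα t)
    rw [lintegral_indicator_const measurableSet_Icc, Real.volume_Icc]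
    exact ENNReal.mul_ne_top ENNReal.ofReal_ne_top ENNReal.ofReal_ne_top

include hH hN in
lemma uu_S (α N : ℝ) (hα : 0 < α) : S (uu H α N) = volume (AN H α N) := by
  have hs := uu_sl H hH K hN α N hα
  unfold S
  rw [← lintegral_prod _ hs.meas.enorm.aemeasurable, ← Measure.volume_eq_prod]
  simp only [uu_enorm H α N hα]
  rw [lintegral_indicator_const (AN_meas H hH α N), one_mul]

/-- the constant -/
noncomputable def cm (m : ℕ) : ℝ := 8 * (2 * 3 ^ m) ^ (2 / (m : ℝ))

include hH hN hK in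
/-- **weak type in bounded time** -/
lemma weakN (hm : 0 < m) (α N : ℝ) (hα : 0 < α) :
    volume (AN H α N) ≤ ENNReal.ofReal (cm m * (K / α) ^ (2 * ((m : ℝ) + 2) / m)) := by
  have hm0 : (0 : ℝ) < m := by exact_mod_cast hm
  have hs := uu_sl H hH K hN α N hα
  have hS := uu_S H hH K hN α N hα
  have hSt : S (uu H α N) ≠ ∞ := hs.tot
  -- the lower bound of the pairing
  have e1 : ∀ z, uu H α N z * F H z = (((AN H α N).indicator (fun z => ‖F H z‖) z : ℝ) : ℂ) := by
    intro z
    unfold uu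
    by_cases h : z ∈ AN H α N
    · rw [indicator_of_mem h, indicator_of_mem h]
      have h0 : ‖F H z‖ ≠ 0 := (hα.trans h.2).ne'
      have e2 : (starRingEnd ℂ) (F H z) * ((‖F H z‖⁻¹ : ℝ) : ℂ) * F H z =
          (F H z * (starRingEnd ℂ) (F H z)) * ((‖F H z‖⁻¹ : ℝ) : ℂ) := by ring
      rw [e2, Complex.mul_conj, Complex.normSq_eq_norm_sq, ← Complex.ofReal_mul]
      congr 1
      field_simp
    · rw [indicator_of_notMem h, indicator_of_notMem h, zero_mul, Complex.ofReal_zero]
  have hlow : ENNReal.ofReal α * S (uu H α N) ≤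
      ‖∫ z : ℝ × (Fin m → ℝ), uu H α N z * F H z‖ₑ := by
    simp only [e1]
    rw [integral_complex_ofReal]
    have h0 : 0 ≤ ∫ z, (AN H α N).indicator (fun z => ‖F H z‖) z :=
      integral_nonneg fun z => indicator_nonneg (fun _ _ => norm_nonneg _) _
    have hi : Integrable ((AN H α N).indicator fun z => ‖F H z‖) := by
      rw [integrable_indicator_iff (AN_meas H hH α N)]
      have hfm : IsFiniteMeasure ((volume : Measure (ℝ × (Fin m → ℝ))).restrict (AN H α N)) := ⟨by
        rw [Measure.restrict_apply_univ, ← hS]; exact hSt.lt_top⟩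
      refine Integrable.of_bound (F_meas H hH).norm.aestronglyMeasurable (K * 2 ^ ((m : ℝ) / 2))
        (ae_of_all _ fun z => ?_)
      rw [norm_norm]
      exact F_le H hH K hK hN z
    rw [← ofReal_norm, Complex.norm_real, Real.norm_eq_abs, abs_of_nonneg h0,
      ofReal_integral_eq_lintegral_ofReal hi
        (ae_of_all _ fun z => indicator_nonneg (fun _ _ => norm_nonneg _) _), hS,
      ← lintegral_indicator_const (AN_meas H hH α N)]
    apply lintegral_mono
    intro z
    simp only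
    by_cases h : z ∈ AN H α N
    · rw [indicator_of_mem h, indicator_of_mem h]
      exact ENNReal.ofReal_le_ofReal h.2.le
    · rw [indicator_of_notMem h, indicator_of_notMem h, ENNReal.ofReal_zero]
  have hup := pairing hs H hH (H_fin H K hN)
  set T : ℝ := (2 * 3 ^ m * K ^ 2 / α ^ 2) ^ (2 / (m : ℝ)) with hT
  have hT0 : 0 < T := by positivity
  have hU := U_sq hs T hT0
  have e3 : (3 : ℝ) ^ m * T ^ (-((m : ℝ) / 2)) = α ^ 2 / (2 * K ^ 2) := by
    rw [hT, ← Real.rpow_mul (by positivity)]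
    have e : 2 / (m : ℝ) * -((m : ℝ) / 2) = -1 := by field_simp
    rw [e, Real.rpow_neg_one]
    field_simp
  rw [e3] at hU
  set s : ℝ := (S (uu H α N)).toReal with hs'
  have es : S (uu H α N) = ENNReal.ofReal s := (ENNReal.ofReal_toReal hSt).symm
  have hs0 : 0 ≤ s := ENNReal.toReal_nonneg
  rw [es] at hU hlow
  rw [← ENNReal.ofReal_mul (by positivity), ← ENNReal.ofReal_mul hs0,
    ← ENNReal.ofReal_mul (by positivity), ← ENNReal.ofReal_add (by positivity) (by positivity)] at hU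
  rw [← ENNReal.ofReal_mul hα.le] at hlow
  set X : ℝ := 4 * T * s + α ^ 2 / (2 * K ^ 2) * (s * s) with hX
  have hX0 : 0 ≤ X := by positivity
  have h5 : ENNReal.ofReal (α * s) ≤ ENNReal.ofReal (K * X ^ (1 / 2 : ℝ)) := by
    refine hlow.trans (hup.trans ?_)
    calc _ ≤ (ENNReal.ofReal (K ^ 2)) ^ (1 / 2 : ℝ) * (ENNReal.ofReal X) ^ (1 / 2 : ℝ) :=
          mul_le_mul' (ENNReal.rpow_le_rpow hN (by norm_num)) (ENNReal.rpow_le_rpow hU (by norm_num))
      _ = _ := by
          rw [ENNReal.ofReal_rpow_of_nonneg (by positivity) (by norm_num),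
            ENNReal.ofReal_rpow_of_nonneg hX0 (by norm_num), ← Real.sqrt_eq_rpow,
            Real.sqrt_sq hK.le, ← ENNReal.ofReal_mul hK.le]
  have h6 : α * s ≤ K * X ^ (1 / 2 : ℝ) := (ENNReal.ofReal_le_ofReal_iff (by positivity)).mp h5
  have h7 : (α * s) ^ 2 ≤ K ^ 2 * X := by
    calc (α * s) ^ 2 ≤ (K * X ^ (1 / 2 : ℝ)) ^ 2 := by gcongr
      _ = _ := by
          rw [mul_pow, ← Real.sqrt_eq_rpow, Real.sq_sqrt hX0]
  have h8 : α ^ 2 * s ^ 2 ≤ 8 * T * K ^ 2 * s := by
    have e : K ^ 2 * X = 4 * T * K ^ 2 * s + α ^ 2 * s ^ 2 / 2 := by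
      rw [hX]
      field_simp
    rw [e] at h7
    nlinarith
  have h9 : s ≤ 8 * T * K ^ 2 / α ^ 2 := by
    rcases eq_or_lt_of_le hs0 with h | h
    · rw [← h]; positivity
    · rw [le_div_iff₀ (by positivity)]
      have : (s * α ^ 2) * s ≤ (8 * T * K ^ 2) * s := by nlinarith
      exact le_of_mul_le_mul_right this h
  rw [← hS, es]
  apply ENNReal.ofReal_le_ofReal
  refine h9.trans (le_of_eq ?_)
  unfold cm
  rw [hT]
  have hKα : 0 < K / α := by positivity
  have e4 : 2 * 3 ^ m * K ^ 2 / α ^ 2 = (2 * 3 ^ m) * (K / α) ^ 2 := by ring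
  have e5 : (K / α) ^ (2 * ((m : ℝ) + 2) / m) = ((K / α) ^ 2) ^ (2 / (m : ℝ)) * (K / α) ^ 2 := by
    rw [← Real.rpow_natCast (K / α) 2, ← Real.rpow_mul hKα.le, ← Real.rpow_add hKα]
    congr 1
    push_cast
    field_simp
    ring
  rw [e4, Real.mul_rpow (by positivity) (by positivity), e5]
  ring

include hH hN hK in
/-- **weak type** -/
lemma weak (hm : 0 < m) (α : ℝ) (hα : 0 < α) :
    volume {z | α < ‖F H z‖} ≤ ENNReal.ofReal (cm m * (K / α) ^ (2 * ((m : ℝ) + 2) / m)) := by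
  have e : {z | α < ‖F H z‖} = ⋃ N : ℕ, AN H α N := by
    ext z
    simp only [mem_setOf_eq, mem_iUnion]
    constructor
    · intro h
      obtain ⟨N, hN⟩ := exists_nat_ge |z.1|
      exact ⟨N, hN, h⟩
    · rintro ⟨N, hN⟩
      exact hN.2
  have hmono : Monotone fun N : ℕ => AN H α (N : ℝ) := by
    intro a b hab z hz
    have : (a : ℝ) ≤ b := by exact_mod_cast hab
    exact ⟨hz.1.trans this, hz.2⟩
  rw [e, hmono.measure_iUnion]
  exact iSup_le fun N => weakN H hH K hK hN hm α N hα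

end Pool.Agent.Y183.TS
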